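import Pool.Agent.H93.EN.Targets4
import Pool.Agent.H93.BL.Final

/-!
# MP_009700_an, GL: local constancy of the chart
-/

set_option autoImplicit false

namespace Pool.Agent.H56.EN

open MeasureTheory Set Metric Filter Topology Pool.Agent.H93.EN
open Pool.Agent.H93.BL hiding T_B1 T_B2 T_B3 T_SB T_SC

theorem gl (h1 : T_U4) : T_GL := by
  intro ι D δ hδ x₀ hx₀ h8
  obtain ⟨s₁, hs₁, hA⟩ := D.loc x₀ hx₀
  obtain ⟨r, hr, hrΩ⟩ := Metric.isOpen_iff.1 D.P.isOpen x₀ hx₀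
  refine ⟨min s₁ (min δ r), lt_min hs₁ (lt_min hδ hr), fun x hx => ?_⟩
  rw [mem_ball] at hx
  have h2 : dist x x₀ < s₁ := lt_of_lt_of_le hx (min_le_left _ _)
  have h3 : dist x x₀ < δ := lt_of_lt_of_le hx ((min_le_right _ _).trans (min_le_left _ _))
  have h4 : dist x x₀ < r := lt_of_lt_of_le hx ((min_le_right _ _).trans (min_le_right _ _))
  have h5 := h1 (D.X x) (D.X x₀) x₀ (D.κ * infDist x₀ D.B / 2) (hA x (mem_ball.2 h2)) δ hδ x (by
    unfold Dat.rho at h8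
    linarith)
  exact ⟨hrΩ (mem_ball.2 h4), h5.1, h5.2.2⟩

end Pool.Agent.H56.EN
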